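import Pool.Agent.helper70.FI4E.SpecK
import Pool.Agent.helper12.TY.FinW

/-!
# Row `fi4e:EDV` (MP_baa4d7): the congruence modulo `p` for one block
-/

set_option autoImplicit false

namespace Pool.Agent.FI4E

open Pool.Agent.helper58.DC Pool.Agent.DI Pool.Agent.GR Pool.Agent.OB Pool.Agent.DR Pool.Agent.FI Pool.Agent.FI3 Pool.Agent.FI4

theorem EDV (hOMX : OMX_stmt) (hEJN : EJN_stmt) : EDV_stmt := by
  intro p M hS G _ _ hG χ hχ D hD hz α hSt n hn hαn hp3 hSml
  have hpr : p.Prime := hS.1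
  obtain ⟨h1, h2⟩ := hEJN p n hpr hp3 hn hSml (orderOf α) (orderOf_dvd_of_pow_eq_one hαn)
  have hact : (hol G).act (SemidirectProduct.inr α) = α := by
    rw [hol_act]
    show al α 1 = α
    exact al_one α
  have hαAB : α ∈ Pool.Agent.BQ.AB (hol G) M χ := ⟨SemidirectProduct.inr α, rfl, by rw [hact]; exact hSt⟩
  have hWAB : Subgroup.zpowers α ≤ Pool.Agent.BQ.AB (hol G) M χ := (Subgroup.zpowers_le).2 hαAB
  have hinf : Subgroup.zpowers α = Subgroup.zpowers α ⊓ Pool.Agent.BQ.AB (hol G) M χ := (inf_eq_left.2 hWAB).symm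
  have hAdm : Pool.Agent.MAPW.Adm (hol G) p M χ (Subgroup.zpowers α) (Subgroup.zpowers α) α := by
    refine ⟨hinf.le, inf_le_left, ?_, ⟨0, ?_⟩, Subgroup.mem_zpowers α, le_sup_left, h1⟩
    · rintro w ⟨hw, -⟩ y hy
      exact Subgroup.mul_mem _ (Subgroup.mul_mem _ hw hy) (Subgroup.inv_mem _ hw)
    · rw [← hinf, Subgroup.relIndex_self, pow_zero]
  have hF := (Pool.Agent.TY.FinW_main p hpr M hS.max hS.mem G hG χ hχ D hD 1 hz _ _ (hol G) (Subgroup.zpowers α)
    (Subgroup.zpowers α) α hAdm (Subgroup.zpowers α) le_rfl).1 hinf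
  have hsum : (∑ᶠ d : ℤ, ∑ᶠ V : {V : Subgroup (MulAut G) // V ⊓ Subgroup.zpowers α = Subgroup.zpowers α}, altSum (hol G) p M χ d V.1) =
      dadeSum (hol G) p M χ α := by
    unfold dadeSum
    refine finsum_congr fun d => ?_
    have e : ∀ V : Subgroup (MulAut G), V ⊓ Subgroup.zpowers α = Subgroup.zpowers α ↔ α ∈ V := fun V => by
      rw [inf_eq_right, Subgroup.zpowers_le]
    exact finsum_comp_equiv (f := fun U : {U : Subgroup (MulAut G) // α ∈ U} => altSum (hol G) p M χ d U.1) (Equiv.subtypeEquivRight e)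
  rw [hsum, pow_one] at hF
  have hpZ : Prime (p : ℤ) := Nat.prime_iff_prime_int.1 hpr
  obtain ⟨m, hm⟩ : (p : ℤ) ∣ dadeSum (hol G) p M χ α := by
    rcases hpZ.dvd_or_dvd hF with h | h
    · exact absurd (by exact_mod_cast h) h2
    · exact h
  have hO := hOMX p M hS G _ _ (hol G) hG χ hχ (SemidirectProduct.inr α)
  rw [hact] at hO
  have hpj : (hol G).proj (SemidirectProduct.inr α) = α := rfl
  rw [hpj, hm] at hO
  refine ⟨m, ?_⟩
  rw [← hO]
  push_cast
  ring

end Pool.Agent.FI4E
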